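import Pool.Agent.Helper20.KP.StH

/-!
# Project KP, module HOC: basic properties of holomorphic functions on `O`
-/

set_option autoImplicit false

namespace Pool.Agent.Helper42.KP

open MeasureTheory Filter Pool.Agent.Helper52.KP Pool.Agent.Helper20.KP
open scoped Topology

private theorem eval_differentiable {N : ℕ} (P : MvPolynomial (Fin N) ℂ) :
    Differentiable ℂ (fun x : Fin N → ℂ => MvPolynomial.eval x P) := by
  induction P using MvPolynomial.induction_on with
  | C a =>
    simp only [MvPolynomial.eval_C]
    exact differentiable_const a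
  | add p q hp hq =>
    simp only [map_add]
    exact hp.add hq
  | mul_X p i hp =>
    simp only [map_mul, MvPolynomial.eval_X]
    exact hp.mul (differentiable_apply i)

theorem hHOC : StHOC := by
  intro D hD
  refine ⟨?_, ?_, ?_, ?_, ?_, ?_, ?_, ?_, ?_⟩
  · intro F hF x hx
    obtain ⟨c, hc⟩ := hD.charts x hx
    have h1 : DifferentiableOn ℂ (fun z => F (c z)) Set.univ :=
      hF D.m Set.univ c isOpen_univ hc.dif.differentiableOn (fun s _ => hc.mem s)
    have h2 : ContinuousAt (fun z => F (c z)) 0 :=
      (h1.continuousOn).continuousAt Filter.univ_mem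
    rw [ContinuousWithinAt, Metric.tendsto_nhdsWithin_nhds]
    intro ε hε
    obtain ⟨r, hr, h3⟩ := Metric.continuousAt_iff.mp h2 ε hε
    obtain ⟨δ, hδ, h4⟩ := hc.cov r hr
    refine ⟨δ, hδ, ?_⟩
    intro x' hx' hd
    obtain ⟨s, hs, rfl⟩ := h4 x' hx' (by rwa [← dist_eq_norm])
    have h5 := h3 (show dist s 0 < r by rwa [dist_zero_right])
    simp only [hc.zero] at h5
    exact h5
  · intro P p Ω γ _ hγ _
    exact (eval_differentiable P).comp_differentiableOn hγ
  · intro L
    refine ⟨?_, ?_⟩
    · intro p Ω γ _ hγ _
      exact (LinearMap.toContinuousLinearMap L).differentiable.comp_differentiableOn hγ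
    · intro x _ c _
      simp
  · intro F F' hF hF'
    exact ⟨fun p Ω γ h h' h'' => (hF p Ω γ h h' h'').add (hF' p Ω γ h h' h''),
      fun p Ω γ h h' h'' => (hF p Ω γ h h' h'').mul (hF' p Ω γ h h' h'')⟩
  · intro k k' F F' hF hF' x hx c hc
    simp only [hF x hx c hc, hF' x hx c hc]
    ring
  · intro F hF j p Ω γ h h' h''
    exact (hF p Ω γ h h' h'').pow j
  · intro k F hF j x hx c hc
    simp only [hF x hx c hc]
    rw [mul_pow, ← pow_mul]
  · intro F hF
    apply hF D.m D.U D.ph
    · exact isOpen_ne_fun (eval_differentiable D.Δ).continuous continuous_const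
    · apply Differentiable.differentiableOn
      rw [differentiable_pi]
      intro i
      exact eval_differentiable (D.Φ i)
    · intro z hz
      exact hD.phO z hz
  · intro F k hF hk A hA
    refine ⟨?_, ?_⟩
    · intro p Ω γ h h' h''
      refine hF p Ω (fun z => A (γ z)) h ?_ ?_
      · exact (LinearMap.toContinuousLinearMap
          (A : (Fin D.N → ℂ) →ₗ[ℂ] (Fin D.N → ℂ))).differentiable.comp_differentiableOn h'
      · intro z hz
        exact (hA _).mpr (h'' hz)
    · intro x hx c hc
      simp only [map_smul]
      exact hk (A x) ((hA x).mpr hx) c hc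

end Pool.Agent.Helper42.KP
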