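import Pool.Agent.Helper52.KP.StG

/-!
# Project KP, module PRD: local product structure (inverse function theorem)
-/

set_option autoImplicit false

namespace Pool.Agent.Helper42.KP

open Pool.Agent.Helper67.NO Pool.Agent.Helper52.KP Filter
open scoped ContDiff ComplexOrder Topology Matrix.Norms.Operator

universe u

section

variable {g : Type u} [LieRing g] [LieAlgebra ℂ g] [FiniteDimensional ℂ g]

/-- the map `(w, v) ↦ expAd (∑ w_j X_j) v` in coordinates -/
private noncomputable def TT {k : ℕ} (X : Fin k → g)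
    (p : (Fin k → ℂ) × (Fin (Module.finrank ℂ g) → ℂ)) : Fin (Module.finrank ℂ g) → ℂ :=
  co (expAd (∑ j, p.1 j • X j) ((Module.finBasis ℂ g).equivFun.symm p.2))

private theorem co_expAd (z y : g) : co (expAd z y) =
    (NormedSpace.exp (LinearMap.toMatrix (Module.finBasis ℂ g) (Module.finBasis ℂ g)
      (LieAlgebra.ad ℂ g z))).mulVec (co y) := by
  have h := LinearMap.toMatrix_mulVec_repr (Module.finBasis ℂ g) (Module.finBasis ℂ g)
    (expAd z) y
  rw [expAd, LinearMap.toMatrix_toLin] at h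
  exact h.symm

private theorem ad_sum {k : ℕ} (X : Fin k → g) (w : Fin k → ℂ) :
    LinearMap.toMatrix (Module.finBasis ℂ g) (Module.finBasis ℂ g)
      (LieAlgebra.ad ℂ g (∑ j, w j • X j)) =
    ∑ j, w j • LinearMap.toMatrix (Module.finBasis ℂ g) (Module.finBasis ℂ g)
      (LieAlgebra.ad ℂ g (X j)) := by
  rw [map_sum, map_sum]
  apply Finset.sum_congr rfl
  intro j _
  rw [map_smul, map_smul]

private theorem TT_eq {k : ℕ} (X : Fin k → g)
    (p : (Fin k → ℂ) × (Fin (Module.finrank ℂ g) → ℂ)) (i : Fin (Module.finrank ℂ g)) :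
    TT X p i = ∑ l, (NormedSpace.exp (∑ j, p.1 j •
      LinearMap.toMatrix (Module.finBasis ℂ g) (Module.finBasis ℂ g)
        (LieAlgebra.ad ℂ g (X j)))) i l * p.2 l := by
  rw [TT, co_expAd, ad_sum]
  have h : co ((Module.finBasis ℂ g).equivFun.symm p.2) = p.2 := by
    funext l
    show (Module.finBasis ℂ g).repr _ l = _
    rw [← Module.Basis.equivFun_apply, LinearEquiv.apply_symm_apply]
  rw [h]
  rfl

private theorem TT_contDiff {k : ℕ} (X : Fin k → g) : ContDiff ℂ ω (TT X) := by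
  rw [contDiff_pi]
  intro i
  have h0 : (fun p => TT X p i) = fun p : (Fin k → ℂ) × (Fin (Module.finrank ℂ g) → ℂ) =>
      ∑ l, (NormedSpace.exp (∑ j, p.1 j •
      LinearMap.toMatrix (Module.finBasis ℂ g) (Module.finBasis ℂ g)
        (LieAlgebra.ad ℂ g (X j)))) i l * p.2 l := by
    funext p
    exact TT_eq X p i
  rw [h0]
  apply ContDiff.sum
  intro l _
  apply ContDiff.mul
  · have he : ContDiff ℂ ω (NormedSpace.exp :
        Matrix (Fin (Module.finrank ℂ g)) (Fin (Module.finrank ℂ g)) ℂ → _) := by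
      rw [contDiff_iff_contDiffAt]
      intro x
      exact (NormedSpace.exp_analytic (𝕂 := ℂ) x).contDiffAt
    have hl : ContDiff ℂ ω (fun p : (Fin k → ℂ) × (Fin (Module.finrank ℂ g) → ℂ) =>
        ∑ j, p.1 j • LinearMap.toMatrix (Module.finBasis ℂ g) (Module.finBasis ℂ g)
        (LieAlgebra.ad ℂ g (X j))) := by
      apply ContDiff.sum
      intro j _
      exact ((contDiff_apply ℂ ℂ j).comp contDiff_fst).smul contDiff_const
    exact (LinearMap.toContinuousLinearMap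
      (Matrix.entryLinearMap ℂ ℂ i l)).contDiff.comp (he.comp hl)
  · exact (contDiff_apply ℂ ℂ l).comp contDiff_snd

end

theorem hPRD (hORB : StORB.{u}) (hDEC : StDEC.{u}) : StPRD.{u} := by
  intro g _ _ _ _ x h f hsl hnil k X hX η hη
  classical
  obtain ⟨-, -, -, horb, -, -, -⟩ := hORB g
  set b := Module.finBasis ℂ g with hb
  have hco : ∀ v, co (b.equivFun.symm v) = v := by
    intro v
    funext l
    show b.repr _ l = _
    rw [← Module.Basis.equivFun_apply, LinearEquiv.apply_symm_apply]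
  have hco' : ∀ y : g, b.equivFun.symm (co y) = y := by
    intro y
    rw [LinearEquiv.symm_apply_eq]
    funext l
    rfl
  have hcolin : ∀ y : g, co y = b.equivFun y := fun y => by funext l; rfl
  -- the complement
  have hcompl : IsCompl (LinearMap.range (LieAlgebra.ad ℂ g x : g →ₗ[ℂ] g))
      (LinearMap.ker (LieAlgebra.ad ℂ g f : g →ₗ[ℂ] g)) := by
    have hD := hDEC g (LieAlgebra.ad ℂ g x : g →ₗ[ℂ] g) (LieAlgebra.ad ℂ g f : g →ₗ[ℂ] g)
      (LieAlgebra.ad ℂ g h : g →ₗ[ℂ] g) ?_ ?_ ?_ hnil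
    · exact hD.2.1
    · intro v
      show ⁅h, ⁅x, v⁆⁆ - ⁅x, ⁅h, v⁆⁆ = (2 : ℂ) • ⁅x, v⁆
      have e1 : ⁅h, ⁅x, v⁆⁆ - ⁅x, ⁅h, v⁆⁆ = ⁅⁅h, x⁆, v⁆ := (lie_lie h x v).symm
      rw [e1, hsl.lie_h_e_nsmul]
      rw [two_smul ℕ x, add_lie, two_smul ℂ]
    · intro v
      show ⁅h, ⁅f, v⁆⁆ - ⁅f, ⁅h, v⁆⁆ = -((2 : ℂ) • ⁅f, v⁆)
      have e1 : ⁅h, ⁅f, v⁆⁆ - ⁅f, ⁅h, v⁆⁆ = ⁅⁅h, f⁆, v⁆ := (lie_lie h f v).symm
      rw [e1, hsl.lie_h_f_nsmul]
      rw [two_smul ℕ f, neg_lie, add_lie, two_smul ℂ]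
    · intro v
      show ⁅x, ⁅f, v⁆⁆ - ⁅f, ⁅x, v⁆⁆ = ⁅h, v⁆
      rw [← hsl.lie_e_f]
      exact (lie_lie x f v).symm
  set K : Submodule ℂ (Fin (Module.finrank ℂ g) → ℂ) :=
    (LinearMap.ker (LieAlgebra.ad ℂ g f : g →ₗ[ℂ] g)).map (b.equivFun : g →ₗ[ℂ] _) with hK
  have hKmem : ∀ s : g, ⁅f, s⁆ = 0 → co s ∈ K := by
    intro s hs
    exact ⟨s, hs, (hcolin s).symm ▸ rfl⟩
  have hKmem' : ∀ v ∈ K, ⁅f, b.equivFun.symm v⁆ = 0 := by
    rintro v ⟨s, hs, rfl⟩
    have : b.equivFun.symm ((b.equivFun : g →ₗ[ℂ] _) s) = s :=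
      b.equivFun.symm_apply_apply s
    rw [this]
    exact hs
  -- the map T
  let T : (Fin k → ℂ) × K → (Fin (Module.finrank ℂ g) → ℂ) := fun p =>
    TT X (p.1, co x + (p.2 : Fin (Module.finrank ℂ g) → ℂ))
  have hTdef : ∀ p, T p = co (expAd (∑ j, p.1 j • X j)
      (b.equivFun.symm (co x + (p.2 : Fin (Module.finrank ℂ g) → ℂ)))) := fun p => rfl
  have hTc : ContDiff ℂ ω T := by
    apply (TT_contDiff X).comp
    apply contDiff_fst.prodMk
    apply contDiff_const.add
    exact K.subtypeL.contDiff.comp contDiff_snd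
  have hsymm : ∀ v : Fin (Module.finrank ℂ g) → ℂ,
      b.equivFun.symm (co x + v) = x + b.equivFun.symm v := by
    intro v
    rw [map_add, hco']
  have hexp0 : ∀ y : g, expAd (∑ j : Fin k, (0 : Fin k → ℂ) j • X j) y = y := by
    intro y
    exact (horb k y X).2.1
  have hT0 : T 0 = co x := by
    rw [hTdef]
    have : (∑ j, (0 : (Fin k → ℂ) × K).1 j • X j) = ∑ j : Fin k, (0 : Fin k → ℂ) j • X j := rfl
    rw [this, hexp0]
    simp only [Prod.snd_zero, ZeroMemClass.coe_zero, add_zero]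
    rw [hco']
  have hTd : DifferentiableAt ℂ T 0 := hTc.differentiable (by simp) 0
  set T' : (Fin k → ℂ) × K →L[ℂ] (Fin (Module.finrank ℂ g) → ℂ) := fderiv ℂ T 0 with hT'
  have hT1 : ∀ w : Fin k → ℂ, T' (w, 0) = co ⁅∑ j, w j • X j, x⁆ := by
    intro w
    have h1 : HasFDerivAt (fun w : Fin k → ℂ => T (w, 0))
        (T'.comp (ContinuousLinearMap.inl ℂ (Fin k → ℂ) K)) 0 := by
      have h2 : HasFDerivAt (fun w : Fin k → ℂ => ((w, 0) : (Fin k → ℂ) × K))
        (ContinuousLinearMap.inl ℂ (Fin k → ℂ) K) 0 :=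
        (ContinuousLinearMap.inl ℂ (Fin k → ℂ) K).hasFDerivAt
      exact HasFDerivAt.comp (g := T) (0 : Fin k → ℂ) (by exact hTd.hasFDerivAt) h2
    have h3 : (fun w : Fin k → ℂ => T (w, 0)) = fun w => co (chart x X w) := by
      funext w
      rw [hTdef]
      simp only [ZeroMemClass.coe_zero, add_zero]
      rw [hco']
      rfl
    rw [h3] at h1
    have h4 := (horb k x X).2.2 w
    rw [h1.fderiv] at h4
    exact h4
  have hT2 : ∀ σ : K, T' (0, σ) = (σ : Fin (Module.finrank ℂ g) → ℂ) := by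
    intro σ
    have h1 : HasFDerivAt (fun σ : K => T (0, σ))
        (T'.comp (ContinuousLinearMap.inr ℂ (Fin k → ℂ) K)) 0 := by
      have h2 : HasFDerivAt (fun σ : K => ((0, σ) : (Fin k → ℂ) × K))
        (ContinuousLinearMap.inr ℂ (Fin k → ℂ) K) 0 :=
        (ContinuousLinearMap.inr ℂ (Fin k → ℂ) K).hasFDerivAt
      exact HasFDerivAt.comp (g := T) (0 : K) (by exact hTd.hasFDerivAt) h2
    have h3 : (fun σ : K => T (0, σ)) =
        fun σ : K => co x + (σ : Fin (Module.finrank ℂ g) → ℂ) := by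
      funext σ
      rw [hTdef, hexp0, hco]
    rw [h3] at h1
    have h4 : HasFDerivAt (fun σ : K => co x + (σ : Fin (Module.finrank ℂ g) → ℂ))
        K.subtypeL 0 := K.subtypeL.hasFDerivAt.const_add (co x)
    have h5 := h1.unique h4
    have h6 := congrArg (fun L : K →L[ℂ] (Fin (Module.finrank ℂ g) → ℂ) => L σ) h5
    exact h6
  have hT12 : ∀ p : (Fin k → ℂ) × K, T' p = co ⁅∑ j, p.1 j • X j, x⁆ +
      (p.2 : Fin (Module.finrank ℂ g) → ℂ) := by
    intro p
    have : p = (p.1, 0) + (0, p.2) := by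
      ext <;> simp
    conv_lhs => rw [this]
    rw [map_add, hT1, hT2]
  have hbr : ∀ w : Fin k → ℂ, ⁅∑ j, w j • X j, x⁆ = ∑ j, w j • ⁅X j, x⁆ := by
    intro w
    rw [sum_lie]
    apply Finset.sum_congr rfl
    intro j _
    rw [smul_lie]
  have hrange : ∀ w : Fin k → ℂ, ⁅∑ j, w j • X j, x⁆ ∈
      LinearMap.range (LieAlgebra.ad ℂ g x : g →ₗ[ℂ] g) := by
    intro w
    refine ⟨-∑ j, w j • X j, ?_⟩
    show ⁅x, -∑ j, w j • X j⁆ = _
    rw [lie_neg, lie_skew]
  have hinj : T'.ker = ⊥ := by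
    rw [LinearMap.ker_eq_bot']
    intro p hp
    have hp' : T' p = 0 := hp
    rw [hT12, hcolin] at hp'
    have e1 : ⁅∑ j, p.1 j • X j, x⁆ + b.equivFun.symm (p.2 : Fin (Module.finrank ℂ g) → ℂ) = 0 := by
      apply b.equivFun.injective
      rw [map_add, LinearEquiv.apply_symm_apply, hp', map_zero]
    have e2 : b.equivFun.symm (p.2 : Fin (Module.finrank ℂ g) → ℂ) ∈
        LinearMap.ker (LieAlgebra.ad ℂ g f : g →ₗ[ℂ] g) := hKmem' _ p.2.2
    have e3 : ⁅∑ j, p.1 j • X j, x⁆ ∈ LinearMap.ker (LieAlgebra.ad ℂ g f : g →ₗ[ℂ] g) := by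
      rw [eq_neg_of_add_eq_zero_left e1]
      exact Submodule.neg_mem _ e2
    have e4 : ⁅∑ j, p.1 j • X j, x⁆ = 0 := by
      have := hcompl.disjoint.le_bot ⟨hrange p.1, e3⟩
      simpa using this
    rw [e4, zero_add] at e1
    have e5 : p.2 = 0 := by
      have : (p.2 : Fin (Module.finrank ℂ g) → ℂ) = 0 := by
        have := congrArg b.equivFun e1
        rwa [LinearEquiv.apply_symm_apply, map_zero] at this
      exact Subtype.ext this
    have e6 : p.1 = 0 := by
      rw [hbr] at e4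
      funext j
      exact (Fintype.linearIndependent_iff.mp hX.li) p.1 e4 j
    exact Prod.ext e6 e5
  have hsurj : T'.range = ⊤ := by
    rw [LinearMap.range_eq_top]
    intro v
    have htop : b.equivFun.symm v ∈ LinearMap.range (LieAlgebra.ad ℂ g x : g →ₗ[ℂ] g) ⊔
        LinearMap.ker (LieAlgebra.ad ℂ g f : g →ₗ[ℂ] g) := by
      rw [hcompl.sup_eq_top]; trivial
    obtain ⟨r, hr, s, hs, hrs⟩ := Submodule.mem_sup.mp htop
    rw [← hX.span] at hr
    obtain ⟨c, hc⟩ := (Submodule.mem_span_range_iff_exists_fun ℂ).mp hr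
    refine ⟨(c, ⟨co s, hKmem s hs⟩), ?_⟩
    show T' _ = v
    rw [hT12]
    show co ⁅∑ j, c j • X j, x⁆ + co s = v
    rw [hbr, hc, hcolin, hcolin, ← map_add, hrs, LinearEquiv.apply_symm_apply]
  let e' : ((Fin k → ℂ) × K) ≃L[ℂ] (Fin (Module.finrank ℂ g) → ℂ) :=
    ContinuousLinearEquiv.ofBijective T' hinj hsurj
  have he' : (e' : (Fin k → ℂ) × K →L[ℂ] _) = T' :=
    ContinuousLinearEquiv.coe_ofBijective T' hinj hsurj
  have hTat : ContDiffAt ℂ ω T 0 := hTc.contDiffAt
  have hTf : HasFDerivAt T (e' : (Fin k → ℂ) × K →L[ℂ] _) 0 := by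
    rw [he']; exact hTd.hasFDerivAt
  have hω : (ω : WithTop ℕ∞) ≠ 0 := by simp
  let Φ := hTat.toOpenPartialHomeomorph T hTf hω
  have hΦ : ∀ p, Φ p = T p := fun p => rfl
  have hsrc : (0 : (Fin k → ℂ) × K) ∈ Φ.source :=
    ContDiffAt.mem_toOpenPartialHomeomorph_source hTat hTf hω
  have htgt : co x ∈ Φ.target := by
    rw [← hT0]
    exact ContDiffAt.image_mem_toOpenPartialHomeomorph_target hTat hTf hω
  have hG0 : Φ.symm (co x) = 0 := by
    rw [← hT0, ← hΦ]
    exact Φ.left_inv hsrc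
  have hGc : ContDiffAt ℂ ω Φ.symm (co x) := by
    have := ContDiffAt.to_localInverse hTat hTf hω
    rw [hT0] at this
    exact this
  have hGd : ∀ᶠ v in 𝓝 (co x), DifferentiableAt ℂ Φ.symm v := by
    have h1 : ContDiffAt ℂ 1 Φ.symm (co x) := hGc.of_le (by simp)
    filter_upwards [h1.eventually (by simp)] with v hv
    exact hv.differentiableAt (by simp)
  have hGcont : ContinuousAt Φ.symm (co x) := hGc.continuousAt
  have hG1 : ∀ᶠ v in 𝓝 (co x), ‖(Φ.symm v).1‖ < η := by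
    have : Tendsto (fun v => ‖(Φ.symm v).1‖) (𝓝 (co x)) (𝓝 ‖(Φ.symm (co x)).1‖) :=
      (continuous_norm.comp continuous_fst).continuousAt.tendsto.comp hGcont
    rw [hG0] at this
    simp only [Prod.fst_zero, norm_zero] at this
    exact this.eventually (gt_mem_nhds hη)
  have hG2 : ∀ᶠ v in 𝓝 (co x),
      ∑ i, ‖((Φ.symm v).2 : Fin (Module.finrank ℂ g) → ℂ) i‖ < η := by
    have hc : Continuous fun p : (Fin k → ℂ) × K =>
        ∑ i, ‖(p.2 : Fin (Module.finrank ℂ g) → ℂ) i‖ := by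
      apply continuous_finsetSum
      intro i _
      exact continuous_norm.comp ((continuous_apply i).comp
        (continuous_subtype_val.comp continuous_snd))
    have : Tendsto (fun v => ∑ i, ‖((Φ.symm v).2 : Fin (Module.finrank ℂ g) → ℂ) i‖)
        (𝓝 (co x)) (𝓝 (∑ i, ‖((Φ.symm (co x)).2 : Fin (Module.finrank ℂ g) → ℂ) i‖)) :=
      hc.continuousAt.tendsto.comp hGcont
    rw [hG0] at this
    simp only [Prod.snd_zero, ZeroMemClass.coe_zero, Pi.zero_apply, norm_zero,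
      Finset.sum_const_zero] at this
    exact this.eventually (gt_mem_nhds hη)
  have hG3 : ∀ᶠ v in 𝓝 (co x), v ∈ Φ.target := Φ.open_target.mem_nhds htgt
  obtain ⟨δ, hδ, hball⟩ := Metric.eventually_nhds_iff.mp (hGd.and (hG1.and (hG2.and hG3)))
  have hball' : ∀ v : Fin (Module.finrank ℂ g) → ℂ, ∑ i, ‖v i - co x i‖ < δ →
      DifferentiableAt ℂ Φ.symm v ∧ ‖(Φ.symm v).1‖ < η ∧
      ∑ i, ‖((Φ.symm v).2 : Fin (Module.finrank ℂ g) → ℂ) i‖ < η ∧ v ∈ Φ.target := by
    intro v hv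
    apply hball
    rw [dist_pi_lt_iff hδ]
    intro i
    rw [dist_eq_norm]
    refine lt_of_le_of_lt ?_ hv
    exact Finset.single_le_sum (f := fun i => ‖v i - co x i‖) (fun i _ => norm_nonneg _)
      (Finset.mem_univ i)
  -- the second radius
  have hT3 : ∀ᶠ p in 𝓝 (0 : (Fin k → ℂ) × K), p ∈ Φ.source ∧
      ∑ i, ‖T p i - co x i‖ < δ := by
    have hsrc' : ∀ᶠ p in 𝓝 (0 : (Fin k → ℂ) × K), p ∈ Φ.source :=
      Φ.open_source.mem_nhds hsrc
    refine hsrc'.and ?_
    have hc : Continuous fun p => ∑ i, ‖T p i - co x i‖ := by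
      apply continuous_finsetSum
      intro i _
      exact continuous_norm.comp (((continuous_apply i).comp hTc.continuous).sub
        continuous_const)
    have := hc.tendsto 0
    simp only [hT0, sub_self, norm_zero, Finset.sum_const_zero] at this
    exact this.eventually (gt_mem_nhds hδ)
  obtain ⟨ε, hε, hballε⟩ := Metric.eventually_nhds_iff.mp hT3
  have hsize : ∀ y y' : g, size (y - y') = ∑ i, ‖co y i - co y' i‖ := by
    intro y y'
    unfold size co
    apply Finset.sum_congr rfl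
    intro i _
    rw [map_sub, Finsupp.sub_apply]
  refine ⟨fun y => (Φ.symm (co y)).1, fun y => b.equivFun.symm
    ((Φ.symm (co y)).2 : Fin (Module.finrank ℂ g) → ℂ), δ, ε, hδ, hε, ?_, ?_, ?_⟩
  · intro v hv
    have h1 := (hball' v hv).1
    have h2 : (fun v => (Φ.symm (co (b.equivFun.symm v))).1) = fun v => (Φ.symm v).1 := by
      funext v
      rw [hco]
    rw [h2]
    exact (h1.fst).differentiableWithinAt
  · intro y hy
    rw [hsize] at hy
    obtain ⟨-, h1, h2, h3⟩ := hball' (co y) hy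
    have h4 : T (Φ.symm (co y)) = co y := by
      rw [← hΦ]; exact Φ.right_inv h3
    refine ⟨?_, hKmem' _ (Φ.symm (co y)).2.2, ?_, h1⟩
    · rw [hTdef, hsymm] at h4
      have h5 := congrArg b.equivFun.symm h4
      rw [hco', hco'] at h5
      exact h5.symm
    · show ∑ i, ‖co (b.equivFun.symm _) i‖ < η
      rw [hco]
      exact h2
  · intro w s hw hs hfs
    have hs' : ‖co s‖ < ε := by
      rw [pi_norm_lt_iff hε]
      intro i
      refine lt_of_le_of_lt ?_ hs
      exact Finset.single_le_sum (f := fun i => ‖b.repr s i‖) (fun i _ => norm_nonneg _)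
        (Finset.mem_univ i)
    let σ : K := ⟨co s, hKmem s hfs⟩
    have hp : dist ((w, σ) : (Fin k → ℂ) × K) 0 < ε := by
      rw [dist_zero_right, Prod.norm_def, max_lt_iff]
      exact ⟨hw, hs'⟩
    obtain ⟨h1, h2⟩ := hballε hp
    have h3 : T (w, σ) = co (expAd (∑ j, w j • X j) (x + s)) := by
      rw [hTdef]
      show co (expAd (∑ j, w j • X j) (b.equivFun.symm (co x + co s))) = _
      rw [hsymm, hco']
    have h4 : Φ.symm (co (expAd (∑ j, w j • X j) (x + s))) = (w, σ) := by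
      rw [← h3, ← hΦ]
      exact Φ.left_inv h1
    refine ⟨?_, ?_, ?_⟩
    · rw [hsize, ← h3]; exact h2
    · simp only
      rw [h4]
    · simp only
      rw [h4]
      exact hco' s

end Pool.Agent.Helper42.KP
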