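import Pool.Agent.Helper52.KP.StW
import Pool.Agent.Helper8.KP.M_ARE

/-!
# Project KP, module LGC: logarithmic cutoffs have small energy
-/

set_option autoImplicit false

namespace Pool.Agent.Helper42.KP

open MeasureTheory Filter Metric Set Function
open scoped ContDiff ComplexOrder Topology NNReal ENNReal
open Pool.Agent.Helper52.KP

/-- derivative of the value of a polynomial -/
private theorem hasFDerivAt_ev {m : ℕ} (P : MvPolynomial (Fin m) ℂ) (z : Fin m → ℂ) :
    HasFDerivAt (fun x : Fin m → ℂ => ev P x)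
      (∑ k, ev (MvPolynomial.pderiv k P) z •
        (ContinuousLinearMap.proj k : (Fin m → ℂ) →L[ℂ] ℂ)) z := by
  induction P using MvPolynomial.induction_on with
  | C a =>
    have h : (fun x : Fin m → ℂ => ev (MvPolynomial.C a) x) = fun _ => a := by
      funext x; simp [ev]
    rw [h]
    have h0 : (∑ k, ev (MvPolynomial.pderiv k (MvPolynomial.C a)) z •
        (ContinuousLinearMap.proj k : (Fin m → ℂ) →L[ℂ] ℂ)) = 0 := by
      apply Finset.sum_eq_zero
      intro k _
      have hk : ev (MvPolynomial.pderiv k (MvPolynomial.C a)) z = 0 := by simp [ev]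
      rw [hk]
      exact zero_smul ℂ (ContinuousLinearMap.proj k : (Fin m → ℂ) →L[ℂ] ℂ)
    rw [h0]
    exact hasFDerivAt_const a z
  | add p q hp hq =>
    have h : (fun x : Fin m → ℂ => ev (p + q) x) = fun x => ev p x + ev q x := by
      funext x; simp [ev]
    rw [h]
    refine (hp.add hq).congr_fderiv ?_
    rw [← Finset.sum_add_distrib]
    apply Finset.sum_congr rfl
    intro k _
    have hk : ev (MvPolynomial.pderiv k (p + q)) z =
        ev (MvPolynomial.pderiv k p) z + ev (MvPolynomial.pderiv k q) z := by simp [ev]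
    rw [hk]
    exact (add_smul _ _ _).symm
  | mul_X p i hp =>
    have h : (fun x : Fin m → ℂ => ev (p * MvPolynomial.X i) x) = fun x => ev p x * x i := by
      funext x; simp [ev]
    rw [h]
    have hi : HasFDerivAt (fun x : Fin m → ℂ => x i)
      (ContinuousLinearMap.proj i : (Fin m → ℂ) →L[ℂ] ℂ) z := hasFDerivAt_apply i z
    refine (hp.mul hi).congr_fderiv ?_
    ext v
    simp only [ev, Derivation.leibniz, MvPolynomial.pderiv_X, smul_eq_mul, map_add, map_mul,
      MvPolynomial.eval_X, add_apply, smul_apply,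
      sum_apply, ContinuousLinearMap.proj_apply]
    simp only [add_mul, Finset.sum_add_distrib, Finset.mul_sum]
    congr 1
    · rw [Finset.sum_eq_single i]
      · simp
      · intro b _ hb
        simp [Pi.single_apply, hb.symm]
      · intro h; exact absurd (Finset.mem_univ i) h
    · apply Finset.sum_congr rfl
      intro k _
      ring

/-- the map which replaces the coordinate `z_j` by `P z` -/
private noncomputable def fm {m : ℕ} (P : MvPolynomial (Fin m) ℂ) (j : Fin m)
    (z : Fin m → ℂ) : Fin m → ℂ := fun i => if i = j then ev P z else z i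

private theorem hasFDerivAt_fm {m : ℕ} (P : MvPolynomial (Fin m) ℂ) (j : Fin m) (z : Fin m → ℂ) :
    HasFDerivAt (fm P j) (ContinuousLinearMap.pi fun i => if i = j then
      (∑ k, ev (MvPolynomial.pderiv k P) z • (ContinuousLinearMap.proj k : (Fin m → ℂ) →L[ℂ] ℂ))
      else ContinuousLinearMap.proj i) z := by
  rw [hasFDerivAt_pi']
  intro i
  by_cases h : i = j
  · subst h
    have h1 : (fun x => fm P i x i) = fun x : Fin m → ℂ => ev P x := by
      funext x; simp [fm]
    rw [h1]
    refine (hasFDerivAt_ev P z).congr_fderiv ?_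
    ext v
    simp
  · have h1 : (fun x => fm P j x i) = fun x : Fin m → ℂ => x i := by
      funext x; simp [fm, h]
    rw [h1]
    refine (hasFDerivAt_apply i z).congr_fderiv ?_
    ext v
    simp [h]

private theorem det_fm {m : ℕ} (P : MvPolynomial (Fin m) ℂ) (j : Fin m) (z : Fin m → ℂ) :
    (fderiv ℂ (fm P j) z).det = ev (MvPolynomial.pderiv j P) z := by
  rw [(hasFDerivAt_fm P j z).fderiv, ContinuousLinearMap.det, ← LinearMap.det_toMatrix']
  have h : LinearMap.toMatrix' ((ContinuousLinearMap.pi fun i => if i = j then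
      (∑ k, ev (MvPolynomial.pderiv k P) z • (ContinuousLinearMap.proj k : (Fin m → ℂ) →L[ℂ] ℂ))
      else ContinuousLinearMap.proj i : (Fin m → ℂ) →L[ℂ] (Fin m → ℂ)) :
        (Fin m → ℂ) →ₗ[ℂ] (Fin m → ℂ)) =
      (1 : Matrix (Fin m) (Fin m) ℂ).updateRow j
        (fun k => ev (MvPolynomial.pderiv k P) z) := by
    ext a b
    rw [LinearMap.toMatrix'_apply]
    by_cases hab : a = j
    · subst hab
      simp only [ContinuousLinearMap.coe_coe, ContinuousLinearMap.coe_pi', if_true,
        sum_apply, smul_apply,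
        ContinuousLinearMap.proj_apply, smul_eq_mul, Matrix.updateRow_self]
      rw [Finset.sum_eq_single b]
      · simp
      · intro c _ hc
        simp [hc]
      · intro h; exact absurd (Finset.mem_univ b) h
    · simp only [ContinuousLinearMap.coe_coe, ContinuousLinearMap.coe_pi', if_neg hab,
        ContinuousLinearMap.proj_apply, ne_eq, hab, not_false_eq_true, Matrix.updateRow_ne]
      simp [Matrix.one_apply, Pi.single_apply]
  rw [h, ← Matrix.cramer_transpose_apply, Matrix.transpose_one, Matrix.cramer_one]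
  rfl

/-- the restriction of `P` to a line -/
private noncomputable def ln {m : ℕ} (P : MvPolynomial (Fin m) ℂ) (j : Fin m) (v : Fin m → ℂ) :
    Polynomial ℂ :=
  MvPolynomial.aeval (fun i => if i = j then Polynomial.X else Polynomial.C (v i)) P

private theorem ln_eval {m : ℕ} (P : MvPolynomial (Fin m) ℂ) (j : Fin m) (v : Fin m → ℂ)
    (ζ : ℂ) : (ln P j v).eval ζ = ev P (Function.update v j ζ) := by
  unfold ln ev
  rw [← Polynomial.coe_evalRingHom, MvPolynomial.aeval_def, MvPolynomial.hom_eval₂]
  unfold MvPolynomial.eval MvPolynomial.eval₂Hom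
  simp only [RingHom.coe_mk, MonoidHom.coe_mk, OneHom.coe_mk]
  have h1 : (Polynomial.evalRingHom ζ).comp (algebraMap ℂ (Polynomial ℂ)) = RingHom.id ℂ := by
    ext a
    simp
  rw [h1]
  congr 1
  funext i
  by_cases h : i = j
  · subst h; simp
  · simp [h]

private theorem ln_natDegree {m : ℕ} (P : MvPolynomial (Fin m) ℂ) (j : Fin m) (v : Fin m → ℂ) :
    (ln P j v).natDegree ≤ P.totalDegree := by
  have h := MvPolynomial.aeval_natDegree_le P le_rfl
    (fun i => if i = j then (Polynomial.X : Polynomial ℂ) else Polynomial.C (v i)) (n := 1)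
    (by
      intro i
      by_cases h : i = j
      · simp [h]
      · simp [h])
  rw [mul_one] at h
  exact h

private theorem ln_const {m : ℕ} (P : MvPolynomial (Fin m) ℂ) (j : Fin m) (v : Fin m → ℂ)
    (a ζ : ℂ) (h : ln P j v = Polynomial.C a) :
    ev (MvPolynomial.pderiv j P) (Function.update v j ζ) = 0 := by
  have h1 : HasFDerivAt (fun ζ : ℂ => Function.update v j ζ)
      (ContinuousLinearMap.pi fun i => if i = j then ContinuousLinearMap.id ℂ ℂ else 0) ζ := by
    rw [hasFDerivAt_pi']
    intro i
    by_cases hi : i = j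
    · subst hi
      have : (fun x : ℂ => Function.update v i x i) = fun x => x := by
        funext x; simp
      rw [this]
      refine (hasFDerivAt_id ζ).congr_fderiv ?_
      ext
      simp
    · have : (fun x : ℂ => Function.update v j x i) = fun _ => v i := by
        funext x; simp [hi]
      rw [this]
      refine (hasFDerivAt_const (v i) ζ).congr_fderiv ?_
      ext
      simp [hi]
  have h2 := (hasFDerivAt_ev P (Function.update v j ζ)).comp ζ h1
  have h3 : ((fun x : Fin m → ℂ => ev P x) ∘ fun ζ : ℂ => Function.update v j ζ) = fun _ => a := by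
    funext x
    simp only [Function.comp_apply]
    rw [← ln_eval, h, Polynomial.eval_C]
  rw [h3] at h2
  have h4 := h2.unique (hasFDerivAt_const a ζ)
  have h5 := congrArg (fun L : ℂ →L[ℂ] ℂ => L 1) h4
  simp only [ContinuousLinearMap.comp_apply, sum_apply,
    smul_apply, ContinuousLinearMap.proj_apply, ContinuousLinearMap.coe_pi',
    smul_eq_mul, zero_apply] at h5
  rw [Finset.sum_eq_single j] at h5
  · simpa using h5
  · intro b _ hb
    simp [hb]
  · intro h; exact absurd (Finset.mem_univ j) h

private theorem fibre {m : ℕ} (P : MvPolynomial (Fin m) ℂ) (j : Fin m) (v : Fin m → ℂ)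
    (S : Set (Fin m → ℂ)) (hS : ∀ z ∈ S, ev (MvPolynomial.pderiv j P) z ≠ 0) :
    {z | z ∈ S ∧ fm P j z = v}.encard ≤ (P.totalDegree : ℕ∞) := by
  rcases Set.eq_empty_or_nonempty {z | z ∈ S ∧ fm P j z = v} with h | ⟨z₀, hz₀S, hz₀⟩
  · rw [h]; simp
  · have hup : ∀ z, fm P j z = v → z = Function.update v j (z j) ∧
        (ln P j v).eval (z j) = v j := by
      intro z hz
      have h1 : z = Function.update v j (z j) := by
        funext i
        by_cases hi : i = j
        · subst hi; simp
        · have := congrFun hz i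
          simp only [fm, if_neg hi] at this
          simp [hi, this]
      refine ⟨h1, ?_⟩
      rw [ln_eval, ← h1]
      have := congrFun hz j
      simpa [fm] using this
    have hq0 : ln P j v - Polynomial.C (v j) ≠ 0 := by
      intro h0
      have h1 := ln_const P j v (v j) (z₀ j) (sub_eq_zero.mp h0)
      rw [← (hup z₀ hz₀).1] at h1
      exact hS z₀ hz₀S h1
    have hinj : Set.InjOn (fun z : Fin m → ℂ => z j) {z | z ∈ S ∧ fm P j z = v} := by
      intro z hz z' hz' h
      have h' : z j = z' j := h
      rw [(hup z hz.2).1, (hup z' hz'.2).1, h']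
    rw [← hinj.encard_image]
    have hsub : (fun z : Fin m → ℂ => z j) '' {z | z ∈ S ∧ fm P j z = v} ⊆
        ((ln P j v - Polynomial.C (v j)).roots.toFinset : Set ℂ) := by
      rintro _ ⟨z, hz, rfl⟩
      simp only [Finset.mem_coe, Multiset.mem_toFinset]
      rw [Polynomial.mem_roots hq0]
      simp [(hup z hz.2).2]
    refine (Set.encard_le_encard hsub).trans ?_
    rw [Set.encard_coe_eq_coe_finsetCard]
    have h2 := (Multiset.toFinset_card_le _).trans
      (Polynomial.card_roots' (ln P j v - Polynomial.C (v j)))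
    have h3 : (ln P j v - Polynomial.C (v j)).natDegree ≤ P.totalDegree := by
      rw [Polynomial.natDegree_sub_C]
      exact ln_natDegree P j v
    exact_mod_cast h2.trans h3

/-- the integral of `|w|⁻²` on a ring -/
private theorem ring_int (ε : ℝ) (h0 : 0 < ε) (h1 : ε < 1 / 2) :
    ∫⁻ w : ℂ, Set.indicator {w : ℂ | ε ^ 2 ≤ ‖w‖ ∧ ‖w‖ ≤ ε}
      (fun w => ENNReal.ofReal ((‖w‖ ^ 2)⁻¹)) w ≤
      ENNReal.ofReal |Real.log ε| * ENNReal.ofReal (2 * Real.pi) := by
  rw [← Complex.lintegral_comp_polarCoord_symm, polarCoord_target]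
  have hle : ∀ p ∈ Ioi (0 : ℝ) ×ˢ Ioo (-Real.pi) Real.pi, ENNReal.ofReal p.1 •
      (Set.indicator {w : ℂ | ε ^ 2 ≤ ‖w‖ ∧ ‖w‖ ≤ ε}
      (fun w => ENNReal.ofReal ((‖w‖ ^ 2)⁻¹)) (Complex.polarCoord.symm p)) ≤
      (Set.indicator (Icc (ε ^ 2) ε) (fun r : ℝ => ENNReal.ofReal (r⁻¹)) p.1) * 1 := by
    rintro ⟨r, θ⟩ ⟨hr, -⟩
    have hr' : 0 < r := hr
    have hn : ‖Complex.polarCoord.symm (r, θ)‖ = r := by
      rw [Complex.norm_polarCoord_symm]; exact abs_of_pos hr'
    rw [mul_one]
    by_cases hm : ε ^ 2 ≤ r ∧ r ≤ ε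
    · rw [Set.indicator_of_mem (by rw [Set.mem_ofPred_eq, hn]; exact hm),
        Set.indicator_of_mem (by exact hm), hn, smul_eq_mul, ← ENNReal.ofReal_mul hr'.le]
      apply le_of_eq
      congr 1
      show r * (r ^ 2)⁻¹ = r⁻¹
      field_simp
    · rw [Set.indicator_of_notMem (by rw [Set.mem_ofPred_eq, hn]; exact hm), smul_zero]
      exact bot_le
  refine (setLIntegral_mono' (measurableSet_Ioi.prod measurableSet_Ioo) hle).trans ?_
  have hpr : (volume : Measure (ℝ × ℝ)).restrict (Ioi (0 : ℝ) ×ˢ Ioo (-Real.pi) Real.pi) =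
      (volume.restrict (Ioi (0 : ℝ))).prod (volume.restrict (Ioo (-Real.pi) Real.pi)) :=
    (Measure.prod_restrict _ _).symm
  rw [hpr]
  have hmeas : Measurable (Set.indicator (Icc (ε ^ 2) ε) (fun r : ℝ => ENNReal.ofReal (r⁻¹))) :=
    (ENNReal.measurable_ofReal.comp measurable_inv).indicator measurableSet_Icc
  rw [lintegral_prod_mul (f := Set.indicator (Icc (ε ^ 2) ε)
    (fun r : ℝ => ENNReal.ofReal (r⁻¹))) (g := fun _ : ℝ => (1 : ℝ≥0∞))
    hmeas.aemeasurable measurable_const.aemeasurable]
  have hB : ∫⁻ _ in Ioo (-Real.pi) Real.pi, (1 : ℝ≥0∞) = ENNReal.ofReal (2 * Real.pi) := by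
    rw [setLIntegral_one, Real.volume_Ioo]
    congr 1; ring
  rw [hB]
  gcongr
  refine (lintegral_mono' Measure.restrict_le_self le_rfl).trans ?_
  rw [lintegral_indicator measurableSet_Icc]
  have hε2 : 0 < ε ^ 2 := by positivity
  have hle' : ε ^ 2 ≤ ε := by nlinarith
  have hint : IntervalIntegrable (fun r : ℝ => r⁻¹) volume (ε ^ 2) ε := by
    apply intervalIntegral.intervalIntegrable_inv
    · intro x hx
      rw [Set.uIcc_of_le hle'] at hx
      exact (lt_of_lt_of_le hε2 hx.1).ne'
    · exact continuousOn_id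
  have hint' : IntegrableOn (fun r : ℝ => r⁻¹) (Icc (ε ^ 2) ε) := by
    rw [integrableOn_Icc_iff_integrableOn_Ioc]
    exact (intervalIntegrable_iff_integrableOn_Ioc_of_le hle').mp hint
  rw [← ofReal_integral_eq_lintegral_ofReal hint'
    ((ae_restrict_iff' measurableSet_Icc).mpr (Filter.Eventually.of_forall (fun r hr =>
      inv_nonneg.mpr (hε2.le.trans hr.1)))), integral_Icc_eq_integral_Ioc,
    ← intervalIntegral.integral_of_le hle', integral_inv_of_pos hε2 h0]
  apply ENNReal.ofReal_le_ofReal
  have : ε / ε ^ 2 = ε⁻¹ := by field_simp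
  rw [this, Real.log_inv]
  exact neg_le_abs _

theorem hLGC : StLGC := by
  intro m P j R
  cases m with
  | zero => exact j.elim0
  | succ n =>
    set V : ℝ≥0∞ := volume (closedBall (0 : Fin n → ℂ) R) with hV
    have hVtop : V ≠ ⊤ := (measure_closedBall_lt_top).ne
    refine ⟨(P.totalDegree : ℝ) * (2 * Real.pi) * V.toReal, ?_⟩
    intro ε h0 h1
    set A : Set ℂ := {w : ℂ | ε ^ 2 ≤ ‖w‖ ∧ ‖w‖ ≤ ε} with hA
    have hAm : MeasurableSet A := by
      rw [hA]
      exact (measurableSet_le measurable_const measurable_norm).inter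
        (measurableSet_le measurable_norm measurable_const)
    set gA : ℂ → ℝ≥0∞ := A.indicator (fun w => ENNReal.ofReal ((‖w‖ ^ 2)⁻¹)) with hgA
    have hgAm : Measurable gA := by
      apply Measurable.indicator _ hAm
      exact ENNReal.measurable_ofReal.comp ((measurable_norm.pow_const 2).inv)
    set gB : (Fin n → ℂ) → ℝ≥0∞ := (closedBall (0 : Fin n → ℂ) R).indicator 1 with hgB
    have hgBm : Measurable gB := measurable_one.indicator measurableSet_closedBall
    set e := MeasurableEquiv.piFinSuccAbove (fun _ : Fin (n + 1) => ℂ) j with he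
    have hemp := volume_preserving_piFinSuccAbove (fun _ : Fin (n + 1) => ℂ) j
    set g : (Fin (n + 1) → ℂ) → ℝ≥0∞ := fun v => gA (e v).1 * gB (e v).2 with hg
    have hgm : Measurable g :=
      (hgAm.comp (measurable_fst.comp e.measurable)).mul
        (hgBm.comp (measurable_snd.comp e.measurable))
    have hgint : ∫⁻ v, g v = (∫⁻ w, gA w) * V := by
      have h2 : ∫⁻ v, g v = ∫⁻ p : ℂ × (Fin n → ℂ), gA p.1 * gB p.2 := by
        exact hemp.lintegral_comp_emb e.measurableEmbedding (fun p => gA p.1 * gB p.2)
      rw [h2, Measure.volume_eq_prod, lintegral_prod_mul hgAm.aemeasurable hgBm.aemeasurable]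
      congr 1
      rw [hgB, lintegral_indicator measurableSet_closedBall]
      simp [hV]
    have hcont : Continuous fun z : Fin (n + 1) → ℂ => ev P z := MvPolynomial.continuous_eval P
    have hcont' : Continuous fun z : Fin (n + 1) → ℂ => ev (MvPolynomial.pderiv j P) z :=
      MvPolynomial.continuous_eval _
    set S : Set (Fin (n + 1) → ℂ) := {z | ‖z‖ ≤ R ∧ ε ^ 2 ≤ ‖ev P z‖ ∧ ‖ev P z‖ ≤ ε} with hS
    have hSm : MeasurableSet S := by
      rw [hS]
      exact (measurableSet_le measurable_norm measurable_const).inter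
        ((measurableSet_le measurable_const hcont.norm.measurable).inter
          (measurableSet_le hcont.norm.measurable measurable_const))
    set N : Set (Fin (n + 1) → ℂ) := {z | ev (MvPolynomial.pderiv j P) z ≠ 0} with hN
    have hNm : MeasurableSet N := (measurableSet_eq_fun hcont'.measurable measurable_const).compl
    have hARE := Pool.Agent.Helper8.KP.hARE (n + 1) Set.univ isOpen_univ (fm P j)
      (fun z _ => (hasFDerivAt_fm P j z).differentiableAt.differentiableWithinAt) (N ∩ S)
      (Set.subset_univ _) (hNm.inter hSm) g hgm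
    have hL : ∫⁻ z in S, ENNReal.ofReal
        (‖ev (MvPolynomial.pderiv j P) z‖ ^ 2 / ‖ev P z‖ ^ 2) =
        ∫⁻ z in N ∩ S, g (fm P j z) *
          ENNReal.ofReal (‖(fderiv ℂ (fm P j) z).det‖ ^ 2) := by
      have h3 : (fun z => ENNReal.ofReal
          (‖ev (MvPolynomial.pderiv j P) z‖ ^ 2 / ‖ev P z‖ ^ 2)) =
          N.indicator (fun z => ENNReal.ofReal
          (‖ev (MvPolynomial.pderiv j P) z‖ ^ 2 / ‖ev P z‖ ^ 2)) := by
        funext z
        by_cases hz : z ∈ N
        · rw [Set.indicator_of_mem hz]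
        · rw [Set.indicator_of_notMem hz]
          have : ev (MvPolynomial.pderiv j P) z = 0 := by
            by_contra h; exact hz h
          rw [this]
          simp
      rw [h3, lintegral_indicator hNm, Measure.restrict_restrict hNm]
      apply setLIntegral_congr_fun (hNm.inter hSm)
      intro z hz
      have hzS := hz.2
      simp only
      rw [det_fm, div_eq_inv_mul, ENNReal.ofReal_mul (by positivity)]
      congr 1
      have e1 : (e (fm P j z)).1 = ev P z := by
        show fm P j z j = ev P z
        simp [fm]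
      have e2 : (e (fm P j z)).2 = fun i => z (j.succAbove i) := by
        funext i
        show fm P j z (j.succAbove i) = z (j.succAbove i)
        simp [fm, Fin.succAbove_ne]
      have e3 : (fun i => z (j.succAbove i)) ∈ closedBall (0 : Fin n → ℂ) R := by
        rw [mem_closedBall_zero_iff, pi_norm_le_iff_of_nonneg ((norm_nonneg z).trans hzS.1)]
        intro i
        exact (norm_le_pi_norm z _).trans hzS.1
      rw [hg]
      simp only
      rw [e1, e2, hgA, hgB, Set.indicator_of_mem (show ev P z ∈ A from hzS.2),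
        Set.indicator_of_mem e3]
      simp
    rw [hL, hARE]
    have hfib : ∀ v, g v * ENat.toENNReal {z | z ∈ N ∩ S ∧ fm P j z = v}.encard ≤
        g v * (P.totalDegree : ℝ≥0∞) := by
      intro v
      gcongr
      have := fibre P j v (N ∩ S) (fun z hz => hz.1)
      exact_mod_cast this
    refine (lintegral_mono hfib).trans ?_
    rw [lintegral_mul_const _ hgm, hgint]
    calc (∫⁻ w, gA w) * V * (P.totalDegree : ℝ≥0∞)
        ≤ (ENNReal.ofReal |Real.log ε| * ENNReal.ofReal (2 * Real.pi)) * V *
            (P.totalDegree : ℝ≥0∞) := by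
          gcongr
          exact ring_int ε h0 h1
      _ = ENNReal.ofReal ((P.totalDegree : ℝ) * (2 * Real.pi) * V.toReal * |Real.log ε|) := by
          have hc : 0 ≤ 2 * Real.pi := by positivity
          generalize 2 * Real.pi = c at hc ⊢
          rw [ENNReal.ofReal_mul (by positivity), ENNReal.ofReal_mul (by positivity),
            ENNReal.ofReal_mul (by positivity), ENNReal.ofReal_toReal hVtop,
            ENNReal.ofReal_natCast]
          ring

end Pool.Agent.Helper42.KP
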